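import Pool.Agent.Y114.RM.Stm3

/-!
# BC: base change of spaces of endomorphisms

The statement `Pool.Agent.Y114.RM.S_BC`.
-/

set_option autoImplicit false

namespace Pool.Agent.Y809.RM.BC

open Module Polynomial TensorProduct Pool.Agent.Y114.RM

section

theorem span_lie {R A : Type} [Field R] [Ring A] [Algebra R A] (s : Set A)
    (h : ∀ x ∈ s, ∀ y ∈ s, x * y - y * x ∈ Submodule.span R s) :
    ∀ x ∈ Submodule.span R s, ∀ y ∈ Submodule.span R s, x * y - y * x ∈ Submodule.span R s := by
  intro X hX Y hY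
  refine Submodule.span_induction (p := fun X _ => X * Y - Y * X ∈ Submodule.span R s)
    ?_ ?_ ?_ ?_ hX
  · intro X' hX'
    refine Submodule.span_induction (p := fun Y _ => X' * Y - Y * X' ∈ Submodule.span R s)
      ?_ ?_ ?_ ?_ hY
    · intro Y' hY'
      exact h X' hX' Y' hY'
    · rw [mul_zero, zero_mul, sub_zero]; exact Submodule.zero_mem _
    · intro x y _ _ hx hy
      have : X' * (x + y) - (x + y) * X' = (X' * x - x * X') + (X' * y - y * X') := by
        rw [mul_add, add_mul]; abel
      rw [this]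
      exact Submodule.add_mem _ hx hy
    · intro c x _ hx
      rw [mul_smul_comm, smul_mul_assoc, ← smul_sub]
      exact Submodule.smul_mem _ _ hx
  · rw [mul_zero, zero_mul, sub_zero]; exact Submodule.zero_mem _
  · intro x y _ _ hx hy
    have : (x + y) * Y - Y * (x + y) = (x * Y - Y * x) + (y * Y - Y * y) := by
      rw [mul_add, add_mul]; abel
    rw [this]
    exact Submodule.add_mem _ hx hy
  · intro c x _ hx
    rw [mul_smul_comm, smul_mul_assoc, ← smul_sub]
    exact Submodule.smul_mem _ _ hx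

theorem detOn_of {K : Type} [Field K] {E : Type} [AddCommGroup E] [Module K E]
    (L : Submodule K E) (T : End K E) (h : ∀ X ∈ L, T X ∈ L) {ι : Type} [Fintype ι]
    [DecidableEq ι] (b : Basis ι K L) (A : Matrix ι ι K)
    (hA : ∀ l, T (b l : E) = ∑ i, A i l • (b i : E)) : detOn L T h = A.det := by
  rw [detOn, ← LinearMap.det_toMatrix b]
  congr 1
  ext i l
  have h1 : T.restrict h (b l) = ∑ i, A i l • b i := by
    apply Subtype.ext
    rw [LinearMap.coe_restrict_apply, hA, Submodule.coe_sum]
    rfl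
  rw [LinearMap.toMatrix_apply, h1, Basis.repr_sum_self]

section abs

variable {k : Type} [Field k] {C : Type} [Field C] [Algebra k C] {E M : Type} [AddCommGroup E]
  [Module k E] [AddCommMonoid M] [Module C M] (j : E → M) (p : (C →ₗ[k] k) → M → E)

/-- the basis of the base change -/
theorem abs_basis (hadd : ∀ π x y, p π (x + y) = p π x + p π y)
    (hp : ∀ π c X, p π (c • j X) = π c • X) (hjadd : ∀ X Y, j (X + Y) = j X + j Y)
    (hjs : ∀ (a : k) X, j (a • X) = algebraMap k C a • j X) {ι : Type} [Fintype ι]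
    (S : Submodule k E) (e : Basis ι k S) (S' : Submodule C M)
    (hS' : S' = Submodule.span C (j '' (S : Set E))) :
    ∃ e' : Basis ι C S', ∀ i, (e' i : M) = j (e i : E) := by
  classical
  let _ : AddCommGroup M := Module.addCommMonoidToAddCommGroup C
  have hp0 : ∀ π, p π 0 = 0 := fun π => by
    have := hadd π 0 0
    rw [add_zero] at this
    exact (left_eq_add.1 this)
  have hj0 : j 0 = 0 := by
    have := hjs 0 0
    rwa [zero_smul, map_zero, zero_smul] at this
  have hpsum : ∀ (π) (s : Finset ι) (f : ι → M), p π (∑ i ∈ s, f i) = ∑ i ∈ s, p π (f i) := by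
    intro π s f
    induction s using Finset.induction_on with
    | empty => rw [Finset.sum_empty, Finset.sum_empty, hp0]
    | insert a s ha ih => rw [Finset.sum_insert ha, Finset.sum_insert ha, hadd, ih]
  have hjsum : ∀ (s : Finset ι) (f : ι → E), j (∑ i ∈ s, f i) = ∑ i ∈ s, j (f i) := by
    intro s f
    induction s using Finset.induction_on with
    | empty => rw [Finset.sum_empty, Finset.sum_empty, hj0]
    | insert a s ha ih => rw [Finset.sum_insert ha, Finset.sum_insert ha, hjadd, ih]
  have hm : ∀ X ∈ S, j X ∈ S' := fun X hX => by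
    rw [hS']; exact Submodule.subset_span ⟨X, hX, rfl⟩
  have hli : LinearIndependent C fun i => (⟨j (e i : E), hm _ (e i).2⟩ : S') := by
    refine Fintype.linearIndependent_iff.2 ?_
    intro g hg i
    have h1 : ∑ i, g i • j (e i : E) = 0 := by
      have := congrArg (Subtype.val) hg
      simpa using this
    by_contra hi
    obtain ⟨π, hπ⟩ := Module.Projective.exists_dual_ne_zero k hi
    apply hπ
    have h2 := congrArg (p π) h1
    rw [hpsum, hp0] at h2
    have h3 : ∑ i, π (g i) • e i = 0 := by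
      apply Subtype.ext
      rw [Submodule.coe_zero, ← h2, Submodule.coe_sum]
      refine Finset.sum_congr rfl fun j _ => ?_
      rw [hp, Submodule.coe_smul]
    exact (Fintype.linearIndependent_iff.1 e.linearIndependent) _ h3 i
  have hsp : ⊤ ≤ Submodule.span C (Set.range fun i => (⟨j (e i : E), hm _ (e i).2⟩ : S')) := by
    rintro ⟨Y, hY⟩ -
    have h2 : Submodule.span C (j '' (S : Set E)) ≤ (Submodule.span C (Set.range fun i =>
      (⟨j (e i : E), hm _ (e i).2⟩ : S'))).map S'.subtype := by
      refine Submodule.span_le.2 ?_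
      rintro _ ⟨X, hX, rfl⟩
      have h1 : X = ∑ i, (e.repr ⟨X, hX⟩) i • (e i : E) := by
        have := congrArg (Subtype.val) (e.sum_repr ⟨X, hX⟩)
        rw [Submodule.coe_sum] at this
        exact this.symm
      have h2 : j X = ∑ i, algebraMap k C ((e.repr ⟨X, hX⟩) i) • j (e i : E) := by
        conv_lhs => rw [h1]
        rw [hjsum]
        exact Finset.sum_congr rfl fun i _ => hjs _ _
      rw [h2]
      refine Submodule.sum_mem _ fun i _ => Submodule.smul_mem _ _ ?_
      exact ⟨⟨j (e i : E), hm _ (e i).2⟩, Submodule.subset_span ⟨i, rfl⟩, rfl⟩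
    obtain ⟨Z, hZ, hZY⟩ := h2 (hS' ▸ hY)
    have : Z = ⟨Y, hY⟩ := Subtype.ext hZY
    rwa [← this]
  exact ⟨Basis.mk hli hsp, fun i => by rw [Basis.mk_apply]⟩

theorem abs_finrank (hadd : ∀ π x y, p π (x + y) = p π x + p π y)
    (hp : ∀ π c X, p π (c • j X) = π c • X) (hjadd : ∀ X Y, j (X + Y) = j X + j Y)
    (hjs : ∀ (a : k) X, j (a • X) = algebraMap k C a • j X)
    (S : Submodule k E) [FiniteDimensional k S] (S' : Submodule C M)
    (hS' : S' = Submodule.span C (j '' (S : Set E))) : finrank C S' = finrank k S := by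
  obtain ⟨e', -⟩ := abs_basis j p hadd hp hjadd hjs S (finBasis k S) S' hS'
  rw [finrank_eq_card_basis e', Fintype.card_fin]

end abs

variable {k : Type} [Field k] {C : Type} [Field C] [Algebra k C] {V : Type} [AddCommGroup V]
  [Module k V]

theorem pv_smul (π : C →ₗ[k] k) (c : C) (z : C ⊗[k] V) :
    pv π (c • z) = pv (π ∘ₗ LinearMap.mulLeft k c) z := by
  induction z using TensorProduct.induction_on with
  | zero => rw [smul_zero, map_zero, map_zero]
  | tmul a v => rw [TensorProduct.smul_tmul', pv_tmul, pv_tmul]; rfl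
  | add x y hx hy => rw [smul_add, map_add, map_add, hx, hy]

theorem pv_bc (π : C →ₗ[k] k) (N : End k V) (z : C ⊗[k] V) :
    pv π (N.baseChange C z) = N (pv π z) := by
  induction z using TensorProduct.induction_on with
  | zero => rw [map_zero, map_zero, map_zero]
  | tmul a v => rw [LinearMap.baseChange_tmul, pv_tmul, pv_tmul, map_smul]
  | add x y hx hy => rw [map_add, map_add, map_add, map_add, hx, hy]

theorem pM_zero (π : C →ₗ[k] k) : pM π (0 : End C (C ⊗[k] V)) = 0 := by
  apply LinearMap.ext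
  intro v
  rw [pM_apply, LinearMap.zero_apply, map_zero, LinearMap.zero_apply]

theorem pM_add (π : C →ₗ[k] k) (X Y : End C (C ⊗[k] V)) : pM π (X + Y) = pM π X + pM π Y := by
  apply LinearMap.ext
  intro v
  rw [pM_apply, LinearMap.add_apply, map_add, LinearMap.add_apply, pM_apply, pM_apply]

theorem pM_sum {ι : Type} (s : Finset ι) (π : C →ₗ[k] k) (X : ι → End C (C ⊗[k] V)) :
    pM π (∑ i ∈ s, X i) = ∑ i ∈ s, pM π (X i) := by
  classical
  induction s using Finset.induction_on with
  | empty => rw [Finset.sum_empty, Finset.sum_empty, pM_zero]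
  | insert a s ha ih => rw [Finset.sum_insert ha, Finset.sum_insert ha, pM_add, ih]

theorem pM_smul (π : C →ₗ[k] k) (c : C) (Y : End C (C ⊗[k] V)) :
    pM π (c • Y) = pM (π ∘ₗ LinearMap.mulLeft k c) Y := by
  apply LinearMap.ext
  intro v
  rw [pM_apply, LinearMap.smul_apply, pv_smul, pM_apply]

theorem pM_bc (π : C →ₗ[k] k) (X : End k V) : pM π (X.baseChange C) = π 1 • X := by
  apply LinearMap.ext
  intro v
  rw [pM_apply, LinearMap.baseChange_tmul, pv_tmul, LinearMap.smul_apply]

theorem pM_smul_bc (π : C →ₗ[k] k) (c : C) (X : End k V) :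
    pM π (c • X.baseChange C) = π c • X := by
  rw [pM_smul, pM_bc, LinearMap.comp_apply, LinearMap.mulLeft_apply, mul_one]

theorem pM_mul_bc (π : C →ₗ[k] k) (Y : End C (C ⊗[k] V)) (N : End k V) :
    pM π (Y * N.baseChange C) = pM π Y * N := by
  apply LinearMap.ext
  intro v
  rw [pM_apply, Module.End.mul_apply, LinearMap.baseChange_tmul, Module.End.mul_apply, pM_apply]

theorem pM_bc_mul (π : C →ₗ[k] k) (Y : End C (C ⊗[k] V)) (N : End k V) :
    pM π (N.baseChange C * Y) = N * pM π Y := by
  apply LinearMap.ext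
  intro v
  rw [pM_apply, Module.End.mul_apply, pv_bc, Module.End.mul_apply, pM_apply]

theorem exists_fin {ι : Type} (u : Basis ι k C) (z : C ⊗[k] V) :
    ∃ T : Finset ι, ∀ T', T ⊆ T' → z = ∑ t ∈ T', u t ⊗ₜ[k] pv (u.coord t) z := by
  classical
  induction z using TensorProduct.induction_on with
  | zero =>
    refine ⟨∅, fun T' _ => ?_⟩
    simp only [map_zero, TensorProduct.tmul_zero, Finset.sum_const_zero]
  | tmul c v =>
    refine ⟨(u.repr c).support, fun T' hT => ?_⟩
    have h1 : c = ∑ t ∈ T', (u.repr c) t • u t := by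
      conv_lhs => rw [← u.linearCombination_repr c, Finsupp.linearCombination_apply]
      exact Finsupp.sum_of_support_subset _ hT _ (fun t _ => zero_smul _ _)
    conv_lhs => rw [h1]
    rw [TensorProduct.sum_tmul]
    refine Finset.sum_congr rfl fun t _ => ?_
    rw [pv_tmul, TensorProduct.smul_tmul, Basis.coord_apply]
  | add x y hx hy =>
    obtain ⟨T1, h1⟩ := hx
    obtain ⟨T2, h2⟩ := hy
    refine ⟨T1 ∪ T2, fun T' hT => ?_⟩
    have h3 := h1 T' (Finset.union_subset_left hT)
    have h4 := h2 T' (Finset.union_subset_right hT)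
    conv_lhs => rw [h3, h4]
    rw [← Finset.sum_add_distrib]
    refine Finset.sum_congr rfl fun t _ => ?_
    rw [map_add, TensorProduct.tmul_add]

variable [FiniteDimensional k V]

theorem exists_dec {ι : Type} (u : Basis ι k C) (Y : End C (C ⊗[k] V)) :
    ∃ T : Finset ι, Y = ∑ t ∈ T, u t • (pM (u.coord t) Y).baseChange C := by
  classical
  choose T hT using fun z : C ⊗[k] V => exists_fin u z
  refine ⟨Finset.univ.biUnion fun i => T (Y (1 ⊗ₜ[k] (finBasis k V) i)), ?_⟩
  apply ((finBasis k V).baseChange C).ext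
  intro i
  rw [Basis.baseChange_apply, LinearMap.sum_apply]
  conv_lhs => rw [hT (Y (1 ⊗ₜ[k] (finBasis k V) i)) _ (Finset.subset_biUnion_of_mem
    (fun i => T (Y (1 ⊗ₜ[k] (finBasis k V) i))) (Finset.mem_univ i))]
  refine Finset.sum_congr rfl fun t _ => ?_
  rw [LinearMap.smul_apply, LinearMap.baseChange_tmul, TensorProduct.smul_tmul', smul_eq_mul,
    mul_one, pM_apply]

omit [FiniteDimensional k V] in
theorem bc_mem {S : Submodule k (End k V)} {X : End k V} (hX : X ∈ S) :
    X.baseChange C ∈ bcS C S := Submodule.subset_span ⟨X, hX, rfl⟩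

theorem mem_bcS (S : Submodule k (End k V)) (Y : End C (C ⊗[k] V)) :
    Y ∈ bcS C S ↔ ∀ π : C →ₗ[k] k, pM π Y ∈ S := by
  constructor
  · intro hY
    refine Submodule.span_induction (p := fun Y _ => ∀ π : C →ₗ[k] k, pM π Y ∈ S)
      ?_ ?_ ?_ ?_ hY
    · rintro _ ⟨X, hX, rfl⟩ π
      rw [pM_bc]
      exact S.smul_mem _ hX
    · intro π
      rw [pM_zero]
      exact S.zero_mem
    · intro x y _ _ hx hy π
      rw [pM_add]
      exact S.add_mem (hx π) (hy π)
    · intro c x _ hx π
      rw [pM_smul]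
      exact hx _
  · intro h
    obtain ⟨T, hT⟩ := exists_dec (Basis.ofVectorSpace k C) Y
    rw [hT]
    exact Submodule.sum_mem _ fun t _ => Submodule.smul_mem _ _ (bc_mem (h _))

theorem eq_zero_of_pM (Y : End C (C ⊗[k] V)) (h : ∀ π : C →ₗ[k] k, pM π Y = 0) : Y = 0 := by
  obtain ⟨T, hT⟩ := exists_dec (Basis.ofVectorSpace k C) Y
  rw [hT]
  refine Finset.sum_eq_zero fun t _ => ?_
  rw [h, LinearMap.baseChange_zero, smul_zero]

theorem eq_of_pM (X Y : End C (C ⊗[k] V)) (h : ∀ π : C →ₗ[k] k, pM π X = pM π Y) : X = Y := by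
  have h2 : (-1 : C) • Y + Y = 0 := by
    have := add_smul (-1 : C) 1 Y
    rw [neg_add_cancel, zero_smul, one_smul] at this
    exact this.symm
  have h1 : X + (-1 : C) • Y = 0 := by
    apply eq_zero_of_pM
    intro π
    rw [pM_add, h π, ← pM_add, add_comm, h2, pM_zero]
  calc X = X + ((-1 : C) • Y + Y) := by rw [h2, add_zero]
    _ = (X + (-1 : C) • Y) + Y := (add_assoc _ _ _).symm
    _ = Y := by rw [h1, zero_add]

theorem tr_pM (π : C →ₗ[k] k) (Y : End C (C ⊗[k] V)) :
    LinearMap.trace k V (pM π Y) = π (LinearMap.trace C (C ⊗[k] V) Y) := by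
  have hY : Y ∈ bcS C (⊤ : Submodule k (End k V)) := (mem_bcS _ _).2 fun _ => Submodule.mem_top
  revert π
  refine Submodule.span_induction (p := fun Y _ => ∀ π : C →ₗ[k] k,
    LinearMap.trace k V (pM π Y) = π (LinearMap.trace C (C ⊗[k] V) Y)) ?_ ?_ ?_ ?_ hY
  · rintro _ ⟨X, _, rfl⟩ π
    rw [pM_bc, map_smul, LinearMap.trace_baseChange, Algebra.algebraMap_eq_smul_one, map_smul,
      smul_eq_mul, smul_eq_mul, mul_comm]
  · intro π
    rw [pM_zero, map_zero, map_zero, map_zero]
  · intro x y _ _ hx hy π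
    rw [pM_add, map_add, map_add, map_add, hx, hy]
  · intro c x _ hx π
    rw [pM_smul, hx, map_smul, smul_eq_mul, LinearMap.comp_apply, LinearMap.mulLeft_apply]

omit [FiniteDimensional k V] in
theorem bc_add (X Y : End k V) :
    (X + Y).baseChange C = X.baseChange C + Y.baseChange C := LinearMap.baseChange_add X Y

omit [FiniteDimensional k V] in
theorem bc_sum {ι : Type} (s : Finset ι) (X : ι → End k V) :
    (∑ i ∈ s, X i).baseChange C = ∑ i ∈ s, (X i).baseChange C := by
  classical
  induction s using Finset.induction_on with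
  | empty => rw [Finset.sum_empty, Finset.sum_empty, LinearMap.baseChange_zero]
  | insert a s ha ih => rw [Finset.sum_insert ha, Finset.sum_insert ha, bc_add, ih]

omit [FiniteDimensional k V] in
theorem bc_smul (a : k) (X : End k V) :
    (a • X).baseChange C = algebraMap k C a • X.baseChange C := by
  rw [LinearMap.baseChange_smul, algebraMap_smul]

theorem cen_bc (G : Submodule k (End k V)) (N : End k V) :
    cen (bcS C G) (N.baseChange C) = bcS C (cen G N) := by
  ext Y
  rw [mem_cen, mem_bcS, mem_bcS]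
  constructor
  · rintro ⟨h1, h2⟩ π
    refine ⟨h1 π, ?_⟩
    rw [← pM_bc_mul, ← pM_mul_bc, h2]
  · intro h
    refine ⟨fun π => (h π).1, ?_⟩
    apply eq_of_pM
    intro π
    rw [pM_bc_mul, pM_mul_bc]
    exact (h π).2

end

/-- BC -/
theorem bc : S_BC := by
  intro k _ C _ _ V _ _ _ G
  refine ⟨fun Y => mem_bcS G Y, ?_, ?_, ?_, ?_, ?_⟩
  · intro hG
    refine span_lie (R := C) (A := End C (C ⊗[k] V)) _ ?_
    rintro _ ⟨X', hX', rfl⟩ _ ⟨Y', hY', rfl⟩
    rw [← LinearMap.baseChange_mul, ← LinearMap.baseChange_mul, ← LinearMap.baseChange_sub]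
    exact bc_mem (hG X' hX' Y' hY')
  · intro hG X hX hXY
    apply eq_zero_of_pM
    intro π
    apply hG _ ((mem_bcS G X).1 hX π)
    intro Y hY
    rw [← pM_mul_bc, tr_pM, hXY _ (bc_mem hY), map_zero]
  · intro N
    rw [cen_bc]
    exact abs_finrank (M := End C (C ⊗[k] V)) (fun X : End k V => X.baseChange C)
      (fun π : C →ₗ[k] k => pM π) pM_add pM_smul_bc bc_add bc_smul (cen G N) _ rfl
  · intro L hLG hL
    refine le_antisymm hLG fun X hX => ?_
    have h1 : X.baseChange C ∈ bcS C L := by rw [hL]; exact bc_mem hX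
    obtain ⟨π, hπ⟩ := Module.Projective.exists_dual_ne_zero k (one_ne_zero (α := C))
    have h2 := (mem_bcS L _).1 h1 π
    rw [pM_bc] at h2
    exact (L.smul_mem_iff hπ).1 h2
  · intro g g' h h'
    obtain ⟨e', he'⟩ := abs_basis (M := End C (C ⊗[k] V)) (fun X : End k V => X.baseChange C)
      (fun π : C →ₗ[k] k => pM π) pM_add pM_smul_bc bc_add bc_smul G (finBasis k G) (bcS C G) rfl
    have key : ∀ l, AdE (g.baseChange C) (g'.baseChange C) (e' l : End C (C ⊗[k] V)) =
        ∑ i, (algebraMap k C).mapMatrix (LinearMap.toMatrix (finBasis k G) (finBasis k G)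
          ((AdE g g').restrict h)) i l • (e' i : End C (C ⊗[k] V)) := by
      intro l
      rw [he', AdE_apply, ← LinearMap.baseChange_mul, ← LinearMap.baseChange_mul, ← AdE_apply]
      have h4 := congrArg (Subtype.val)
        ((finBasis k G).sum_repr ((AdE g g').restrict h (finBasis k G l)))
      rw [LinearMap.coe_restrict_apply, Submodule.coe_sum] at h4
      rw [← h4, bc_sum]
      refine Finset.sum_congr rfl fun i _ => ?_
      rw [Submodule.coe_smul, bc_smul, he', RingHom.mapMatrix_apply,
        Matrix.map_apply, LinearMap.toMatrix_apply]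
    rw [detOn_of _ _ h' e' _ key, detOn, ← LinearMap.det_toMatrix (finBasis k G), RingHom.map_det]

end Pool.Agent.Y809.RM.BC
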