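import Pool.Agent.Y114.RM.Stm

/-!
# RANK: semicontinuity of the dimension of centralizers

The statement `Pool.Agent.Y114.RM.S_RANK`: if a point `h'` of a Lie algebra `L` of endomorphisms
has `r` polynomials whose traces against `L` separate `r` directions, then no element of `L` has a
centralizer of dimension less than `r`.
-/

set_option autoImplicit false

universe u v

namespace Pool.Agent.Y809.RM

open Module Polynomial Pool.Agent.Y114.RM

section

variable {K : Type u} [Field K] {V : Type v} [AddCommGroup V] [Module K V] [FiniteDimensional K V]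

/-- the adjoint action on `L` -/
noncomputable def adL {L : Submodule K (End K V)} (hL : IsLie L) (y : L) : L →ₗ[K] L :=
  (adE (y : End K V)).restrict (hL.adE_mem y.2)

omit [FiniteDimensional K V] in
theorem adL_coe {L : Submodule K (End K V)} (hL : IsLie L) (y z : L) :
    ((adL hL y z : L) : End K V) = y * z - z * y := rfl

/-- the functionals `z ↦ tr (p i (y) z)` -/
noncomputable def phi (L : Submodule K (End K V)) {r : ℕ} (p : Fin r → K[X]) (y : End K V) :
    L →ₗ[K] (Fin r → K) :=
  LinearMap.pi fun i => (LinearMap.trace K V) ∘ₗ (LinearMap.mulLeft K (aeval y (p i))) ∘ₗ L.subtype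

omit [FiniteDimensional K V] in
theorem phi_apply (L : Submodule K (End K V)) {r : ℕ} (p : Fin r → K[X]) (y : End K V) (z : L)
    (i : Fin r) : phi L p y z i = LinearMap.trace K V (aeval y (p i) * z) := rfl

theorem phi_ad {L : Submodule K (End K V)} (hL : IsLie L) {r : ℕ} (p : Fin r → K[X]) (y z : L) :
    phi L p y (adL hL y z) = 0 := by
  funext i
  rw [phi_apply, adL_coe, mul_sub, map_sub, Pi.zero_apply, sub_eq_zero]
  have hc : Commute (aeval (y : End K V) (p i)) (y : End K V) := by
    have h1 : (y : End K V) = aeval (y : End K V) (X : K[X]) := (aeval_X _).symm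
    conv_rhs => rw [h1]
    exact (Commute.all (p i) X).map (aeval (y : End K V))
  rw [← mul_assoc, hc.eq, mul_assoc, LinearMap.trace_mul_comm K (y : End K V), mul_assoc]

theorem phi_surj {L : Submodule K (End K V)} {r : ℕ} (p : Fin r → K[X]) (y : End K V)
    (t : Fin r → L)
    (h : (Matrix.of fun i j => LinearMap.trace K V (aeval y (p i) * t j)).det ≠ 0) :
    Function.Surjective (phi L p y) := by
  intro w
  have hu : IsUnit (Matrix.of fun i j => LinearMap.trace K V (aeval y (p i) * t j)) :=
    (Matrix.isUnit_iff_isUnit_det _).2 (isUnit_iff_ne_zero.2 h)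
  obtain ⟨c, hc⟩ := (Matrix.mulVec_surjective_iff_isUnit.2 hu) w
  refine ⟨∑ j, c j • t j, ?_⟩
  rw [← hc]
  funext i
  rw [map_sum, Finset.sum_apply, Matrix.mulVec, dotProduct]
  refine Finset.sum_congr rfl fun j _ => ?_
  rw [map_smul, Pi.smul_apply, phi_apply, smul_eq_mul, Matrix.of_apply, mul_comm]

theorem range_le {L : Submodule K (End K V)} (hL : IsLie L) {r : ℕ} (p : Fin r → K[X]) (y : L)
    (t : Fin r → L)
    (h : (Matrix.of fun i j => LinearMap.trace K V (aeval (y : End K V) (p i) * t j)).det ≠ 0) :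
    finrank K (LinearMap.range (adL hL y)) + r ≤ finrank K L := by
  have h1 := (phi L p (y : End K V)).finrank_range_add_finrank_ker
  rw [LinearMap.range_eq_top.2 (phi_surj p _ t h), finrank_top, finrank_fin_fun] at h1
  have h2 : LinearMap.range (adL hL y) ≤ LinearMap.ker (phi L p (y : End K V)) := by
    rintro _ ⟨z, rfl⟩
    exact phi_ad hL p y z
  have h3 := Submodule.finrank_mono h2
  omega

theorem finrank_cen {L : Submodule K (End K V)} (hL : IsLie L) (y : L) :
    finrank K (cen L (y : End K V)) + finrank K (LinearMap.range (adL hL y)) = finrank K L := by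
  have h1 := (adL hL y).finrank_range_add_finrank_ker
  have h2 : (LinearMap.ker (adL hL y)).map L.subtype = cen L (y : End K V) := by
    ext Y
    rw [Submodule.mem_map, mem_cen]
    constructor
    · rintro ⟨z, hz, rfl⟩
      rw [LinearMap.mem_ker] at hz
      have h3 := congrArg (fun z : L => (z : End K V)) hz
      rw [adL_coe] at h3
      exact ⟨z.2, sub_eq_zero.1 h3⟩
    · rintro ⟨h3, h4⟩
      refine ⟨⟨Y, h3⟩, ?_, rfl⟩
      rw [LinearMap.mem_ker]
      apply Subtype.ext
      rw [adL_coe]
      exact sub_eq_zero.2 h4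
  rw [← h2, Submodule.finrank_map_subtype_eq]
  omega

end

/-- polynomial dependence of determinants -/
theorem exists_poly_det {K : Type u} [Field K] {ρ : ℕ} (B0 B1 : Matrix (Fin ρ) (Fin ρ) K) :
    ∃ g : K[X], ∀ s : K, g.eval s = (B0 + s • B1).det := by
  let Mx : Matrix (Fin ρ) (Fin ρ) K[X] := B0.map C + (X : K[X]) • B1.map C
  refine ⟨Mx.det, fun s => ?_⟩
  have h1 := RingHom.map_det (evalRingHom s) Mx
  rw [coe_evalRingHom] at h1
  rw [h1]
  congr 1
  ext i j
  simp [Mx]
  exact mul_comm _ _

/-- polynomial dependence of the determinant of traces -/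
theorem exists_poly_tr {K : Type u} [Field K] {V : Type v} [AddCommGroup V] [Module K V]
    [FiniteDimensional K V] {r : ℕ} (p : Fin r → K[X]) (a c : End K V) (t : Fin r → End K V) :
    ∃ g : K[X], ∀ s : K, g.eval s =
      (Matrix.of fun i j => LinearMap.trace K V (aeval (a + s • c) (p i) * t j)).det := by
  classical
  let b := Module.finBasis K V
  let Θ : End K V ≃ₐ[K] Matrix (Fin (finrank K V)) (Fin (finrank K V)) K :=
    LinearMap.toMatrixAlgEquiv b
  let Mx : Matrix (Fin (finrank K V)) (Fin (finrank K V)) K[X] :=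
    (Θ a).map C + (X : K[X]) • (Θ c).map C
  refine ⟨(Matrix.of fun i j => Matrix.trace (aeval Mx (p i) * (Θ (t j)).map C)).det,
    fun s => ?_⟩
  have h1 := RingHom.map_det (evalRingHom s)
    (Matrix.of fun i j => Matrix.trace (aeval Mx (p i) * (Θ (t j)).map C))
  rw [coe_evalRingHom] at h1
  rw [h1]
  congr 1
  ext i j
  let E : Matrix (Fin (finrank K V)) (Fin (finrank K V)) K[X] →ₐ[K]
      Matrix (Fin (finrank K V)) (Fin (finrank K V)) K := (aeval s : K[X] →ₐ[K] K).mapMatrix
  have hE : E Mx = Θ (a + s • c) := by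
    ext k l
    change (aeval s : K[X] →ₐ[K] K) (Mx k l) = Θ (a + s • c) k l
    rw [map_add Θ, map_smul Θ]
    simp [Mx]
    exact mul_comm _ _
  have hEt : E ((Θ (t j)).map C) = Θ (t j) := by
    ext k l
    simp [E]
  have h2 : (evalRingHom s) (Matrix.trace (aeval Mx (p i) * (Θ (t j)).map C)) =
      Matrix.trace (E (aeval Mx (p i) * (Θ (t j)).map C)) := by
    have := AddMonoidHom.map_trace ((evalRingHom s : K[X] →+* K) : K[X] →+ K)
      (aeval Mx (p i) * (Θ (t j)).map C)
    exact this
  rw [RingHom.mapMatrix_apply, Matrix.map_apply, Matrix.of_apply, h2, map_mul, hEt,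
    ← aeval_algHom_apply, hE, Matrix.of_apply, LinearMap.trace_eq_matrix_trace K b]
  have h3 : aeval (Θ (a + s • c)) (p i) = Θ (aeval (a + s • c) (p i)) :=
    aeval_algHom_apply (Θ : End K V →ₐ[K] Matrix (Fin (finrank K V)) (Fin (finrank K V)) K)
      (a + s • c) (p i)
  rw [h3, ← map_mul]
  rfl

/-- vectors and functionals which detect the rank -/
theorem exists_PQ {K : Type u} [Field K] {M : Type v} [AddCommGroup M] [Module K M]
    (T : M →ₗ[K] M) (ρ : ℕ) (h : ρ ≤ finrank K (LinearMap.range T)) :
    ∃ (y : Fin ρ → M) (Q : M →ₗ[K] (Fin ρ → K)),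
      (Matrix.of fun i j => Q (T (y j)) i) = (1 : Matrix (Fin ρ) (Fin ρ) K) := by
  classical
  obtain ⟨w, hw⟩ := exists_linearIndependent_of_le_finrank h
  choose y hy using fun j => (w j).2
  have hu : LinearIndependent K (fun j => (w j : M)) :=
    hw.map' (Submodule.subtype _) (Submodule.ker_subtype _)
  obtain ⟨Q, hQ⟩ := (Fintype.linearCombination K (fun j => (w j : M))).exists_leftInverse_of_injective
    (LinearMap.ker_eq_bot.2 hu.fintypeLinearCombination_injective)
  refine ⟨y, Q, ?_⟩
  ext i j
  rw [Matrix.of_apply, hy]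
  have h2 := congrArg (fun f : (Fin ρ → K) →ₗ[K] (Fin ρ → K) => f (Pi.single j 1)) hQ
  simp only [LinearMap.comp_apply, LinearMap.id_apply] at h2
  rw [Fintype.linearCombination_apply_single, one_smul] at h2
  rw [h2, Matrix.one_apply, Pi.single_apply]

/-- a lower bound of the rank -/
theorem rank_ge {K : Type u} [Field K] {M : Type v} [AddCommGroup M] [Module K M]
    [FiniteDimensional K M] (T : M →ₗ[K] M) (ρ : ℕ) (y : Fin ρ → M) (Q : M →ₗ[K] (Fin ρ → K))
    (h : (Matrix.of fun i j => Q (T (y j)) i).det ≠ 0) :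
    ρ ≤ finrank K (LinearMap.range T) := by
  classical
  have h4 : LinearIndependent K (fun j => T (y j)) := by
    apply LinearIndependent.of_comp Q
    exact Matrix.linearIndependent_rows_of_det_ne_zero (A := (Matrix.of fun i j =>
      Q (T (y j)) i).transpose) (by rw [Matrix.det_transpose]; exact h)
  have h5 := finrank_span_eq_card h4
  rw [Fintype.card_fin] at h5
  rw [← h5]
  refine Submodule.finrank_mono (Submodule.span_le.2 ?_)
  rintro _ ⟨j, rfl⟩
  exact ⟨y j, rfl⟩

theorem adL_lin {K : Type u} [Field K] {V : Type v} [AddCommGroup V] [Module K V]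
    [FiniteDimensional K V] {L : Submodule K (End K V)} (hL : IsLie L) (a c : L) (s : K) (z : L) :
    adL hL (a + s • c) z = adL hL a z + s • adL hL c z := by
  apply Subtype.ext
  rw [Submodule.coe_add, Submodule.coe_smul, adL_coe, adL_coe, adL_coe, Submodule.coe_add,
    Submodule.coe_smul, add_mul, mul_add, smul_mul_assoc, mul_smul_comm, smul_sub]
  abel

/-- RANK -/
theorem rank : S_RANK.{u, v} := by
  intro K _ _ V _ _ _ L hL h' hh' r p t ht hdet x hx
  classical
  let h0 : L := ⟨h', hh'⟩
  let x0 : L := ⟨x, hx⟩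
  let t0 : Fin r → L := fun j => ⟨t j, ht j⟩
  have hr := range_le hL p h0 t0 hdet
  by_contra hcon
  push Not at hcon
  have hc : finrank K (cen L x) + finrank K (LinearMap.range (adL hL x0)) = finrank K L :=
    finrank_cen hL x0
  have h1 : finrank K L - r + 1 ≤ finrank K (LinearMap.range (adL hL x0)) := by omega
  obtain ⟨y, Q, hyQ⟩ := exists_PQ (adL hL x0) _ h1
  obtain ⟨g, hg⟩ := exists_poly_det (Matrix.of fun i j => Q (adL hL h0 (y j)) i)
    (Matrix.of fun i j => Q (adL hL (x0 - h0) (y j)) i)
  have hgB : ∀ s : K, g.eval s =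
      (Matrix.of fun i j => Q (adL hL (h0 + s • (x0 - h0)) (y j)) i).det := by
    intro s
    rw [hg]
    congr 1
    ext i j
    rw [Matrix.add_apply, Matrix.smul_apply, Matrix.of_apply, Matrix.of_apply, Matrix.of_apply,
      adL_lin, map_add Q, map_smul Q]
    rfl
  have hg1 : g.eval 1 ≠ 0 := by
    rw [hgB, one_smul, add_sub_cancel, hyQ, Matrix.det_one]
    exact one_ne_zero
  obtain ⟨D, hD⟩ := exists_poly_tr p h' (x - h') t
  have hD0 : D.eval 0 ≠ 0 := by
    rw [hD, zero_smul, add_zero]
    exact hdet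
  have hgD : g * D ≠ 0 := by
    refine mul_ne_zero ?_ ?_
    · rintro rfl
      exact hg1 eval_zero
    · rintro rfl
      exact hD0 eval_zero
  obtain ⟨s, hs⟩ : ∃ s : K, (g * D).eval s ≠ 0 := by
    by_contra hno
    push Not at hno
    exact hgD (Polynomial.funext fun s => by rw [hno, eval_zero])
  rw [eval_mul] at hs
  have hs1 : g.eval s ≠ 0 := left_ne_zero_of_mul hs
  have hs2 : D.eval s ≠ 0 := right_ne_zero_of_mul hs
  rw [hD] at hs2
  have h3 := range_le hL p (h0 + s • (x0 - h0)) t0 hs2
  rw [hgB] at hs1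
  have h4 := rank_ge _ _ y Q hs1
  omega

end Pool.Agent.Y809.RM
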