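import Pool.Agent.Y114.RM.Stm
import Pool.Agent.W457.T4

/-!
# TRIP: the triple of a regular nilpotent element

The statement `Pool.Agent.Y114.RM.S_TRIP`, assuming `S_CENT` and `S_JM1`: if `N` is a regular
nilpotent element of a Lie algebra `L` of endomorphisms whose trace form is nondegenerate, and
`d` in `L` is semisimple with `[d, N] = N`, then `N` and `2 d - c`, for a central `c` in `L`, are
part of a triple.
-/

set_option autoImplicit false

universe u v

namespace Pool.Agent.Y809.RM

open Module Polynomial Pool.Agent.Y114.RM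

section

variable {K : Type u} [Field K] {V : Type v} [AddCommGroup V] [Module K V]

/-- the centre of `L` -/
def ctr (L : Submodule K (End K V)) : Submodule K (End K V) where
  carrier := {z | z ∈ L ∧ ∀ X ∈ L, z * X = X * z}
  add_mem' := by
    rintro a b ⟨ha, ha'⟩ ⟨hb, hb'⟩
    exact ⟨L.add_mem ha hb, fun X hX => by rw [mul_add, add_mul, ha' X hX, hb' X hX]⟩
  zero_mem' := ⟨L.zero_mem, fun X _ => by rw [mul_zero, zero_mul]⟩
  smul_mem' := by
    rintro c a ⟨ha, ha'⟩
    exact ⟨L.smul_mem c ha, fun X hX => by rw [mul_smul_comm, smul_mul_assoc, ha' X hX]⟩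

theorem tr_inv (a b c : End K V) : LinearMap.trace K V ((a * b - b * a) * c) =
    LinearMap.trace K V (a * (b * c - c * b)) := by
  rw [sub_mul, mul_sub, map_sub, map_sub, mul_assoc b a c, LinearMap.trace_mul_comm K b (a * c),
    mul_assoc, mul_assoc]

variable [FiniteDimensional K V]

/-- representing functionals -/
theorem rep (M : Submodule K (End K V)) (h : NonDeg M) (φ : M →ₗ[K] K) :
    ∃ w ∈ M, ∀ x : M, φ x = LinearMap.trace K V (w * x) := by
  let B : M →ₗ[K] Dual K M :=
    { toFun := fun w =>
        (LinearMap.trace K V) ∘ₗ (LinearMap.mulLeft K (w : End K V)) ∘ₗ M.subtype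
      map_add' := fun a b => by
        apply LinearMap.ext
        intro x
        change LinearMap.trace K V ((((a + b : M)) : End K V) * x) =
          LinearMap.trace K V ((a : End K V) * x) + LinearMap.trace K V ((b : End K V) * x)
        rw [Submodule.coe_add, add_mul, map_add]
      map_smul' := fun s a => by
        apply LinearMap.ext
        intro x
        change LinearMap.trace K V ((((s • a : M)) : End K V) * x) =
          s • LinearMap.trace K V ((a : End K V) * x)
        rw [Submodule.coe_smul, smul_mul_assoc, map_smul] }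
  have hinj : Function.Injective B := by
    rw [← LinearMap.ker_eq_bot, LinearMap.ker_eq_bot']
    intro w hw
    apply Subtype.ext
    apply h w w.2
    intro Y hY
    exact LinearMap.congr_fun hw ⟨Y, hY⟩
  have hsurj : Function.Surjective B :=
    (LinearMap.injective_iff_surjective_of_finrank_eq_finrank
      (Subspace.dual_finrank_eq (K := K) (V := M)).symm).1 hinj
  obtain ⟨w, hw⟩ := hsurj φ
  exact ⟨w, w.2, fun x => by rw [← hw]; rfl⟩

theorem nonDeg_ctr [CharZero K] {L : Submodule K (End K V)} (hL : IsLie L) (hn : NonDeg L) :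
    NonDeg (ctr L) := by
  intro z hz hz0
  have hzB : z ∈ Submodule.span K {x : End K V | ∃ a ∈ L, ∃ b ∈ L, x = a * b - b * a} := by
    by_contra hzB
    obtain ⟨φ, hφz, hφB⟩ := Submodule.exists_dual_map_eq_bot_of_notMem hzB inferInstance
    obtain ⟨w, hw, hwx⟩ := rep L hn (φ ∘ₗ L.subtype)
    have hwc : w ∈ ctr L := by
      refine ⟨hw, fun X hX => ?_⟩
      rw [← sub_eq_zero]
      apply hn _ (hL w hw X hX)
      intro Y hY
      rw [tr_inv]
      have h1 := hwx ⟨X * Y - Y * X, hL X hX Y hY⟩
      rw [← h1]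
      have h2 : φ (X * Y - Y * X) ∈ Submodule.map φ
          (Submodule.span K {x : End K V | ∃ a ∈ L, ∃ b ∈ L, x = a * b - b * a}) :=
        Submodule.mem_map_of_mem (Submodule.subset_span ⟨X, hX, Y, hY, rfl⟩)
      rw [hφB] at h2
      exact (Submodule.mem_bot K).1 h2
    apply hφz
    have h3 : φ z = LinearMap.trace K V (w * z) := hwx ⟨z, hz.1⟩
    rw [h3, LinearMap.trace_mul_comm]
    exact hz0 w hwc
  have htr : ∀ m : ℕ, ∀ x ∈ Submodule.span K {x : End K V | ∃ a ∈ L, ∃ b ∈ L, x = a * b - b * a},
      LinearMap.trace K V (z ^ m * x) = 0 := by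
    intro m x hx
    induction hx using Submodule.span_induction with
    | mem x hx =>
      obtain ⟨a, ha, b, hb, rfl⟩ := hx
      have hc : Commute (z ^ m) a := (show Commute z a from hz.2 a ha).pow_left m
      rw [← tr_inv, hc.eq, sub_self, zero_mul, map_zero]
    | zero => rw [mul_zero, map_zero]
    | add x y _ _ hx hy => rw [mul_add, map_add, hx, hy, add_zero]
    | smul s x _ hx => rw [mul_smul_comm, map_smul, hx, smul_zero]
  have hnil : IsNilpotent z := by
    apply Pool.Agent.W457.isNilpotent_of_trace_pow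
    intro j
    rw [pow_succ]
    exact htr j z hzB
  apply hn z hz.1
  intro Y hY
  exact (LinearMap.isNilpotent_trace_of_isNilpotent
    ((show Commute z Y from hz.2 Y hY).isNilpotent_mul_right hnil)).eq_zero

omit [FiniteDimensional K V] in
theorem tr_nil {a b : End K V} (h : Commute a b) (ha : IsNilpotent a) :
    LinearMap.trace K V (a * b) = 0 :=
  (LinearMap.isNilpotent_trace_of_isNilpotent (h.isNilpotent_mul_right ha)).eq_zero

theorem ker_sq {E : Type v} [AddCommGroup E] [Module K E] [FiniteDimensional K E] (T : End K E)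
    (hT : T.IsSemisimple) (x : E) (h : T (T x) = 0) : T x = 0 := by
  have h1 : x ∈ T.genEigenspace 0 (2 : ℕ) := by
    rw [Module.End.mem_genEigenspace_nat, zero_smul, sub_zero, LinearMap.mem_ker, pow_two]
    exact h
  rw [hT.isFinitelySemisimple.genEigenspace_eq_eigenspace 0 (by norm_num)] at h1
  rw [Module.End.mem_eigenspace_iff, zero_smul] at h1
  exact h1

section

attribute [local instance 100] LieRing.ofAssociativeRing

omit [FiniteDimensional K V] in
theorem ad_eq_adE (a : End K V) : LieAlgebra.ad K (End K V) a = adE a := by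
  apply LinearMap.ext
  intro x
  rw [LieAlgebra.ad_apply, LieRing.of_associative_ring_bracket, adE_apply]

theorem adE_semi [PerfectField K] {s : End K V} (hs : s.IsSemisimple) : (adE s).IsSemisimple := by
  rw [← ad_eq_adE]
  exact LieAlgebra.ad_isSemisimple_of_isSemisimple hs

theorem adE_poly [PerfectField K] {n s : End K V} (hc : Commute n s) (hn : IsNilpotent n)
    (hs : s.IsSemisimple) : ∃ p : K[X], aeval (adE (n + s)) p = adE s := by
  have h := LieAlgebra.ad_mem_adjoin_of_isSemisimple hc hn hs
  rw [ad_eq_adE, ad_eq_adE] at h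
  exact Algebra.adjoin_mem_exists_aeval K _ h

end

omit [FiniteDimensional K V] in
theorem poly_mem {L : Submodule K (End K V)} (T : End K (End K V)) (hT : ∀ x ∈ L, T x ∈ L)
    (p : K[X]) : ∀ x ∈ L, aeval T p x ∈ L := by
  have hpow : ∀ n : ℕ, ∀ x ∈ L, (T ^ n) x ∈ L := by
    intro n
    induction n with
    | zero => intro x hx; exact hx
    | succ n ih =>
      intro x hx
      rw [pow_succ]
      exact ih _ (hT x hx)
  intro x hx
  induction p using Polynomial.induction_on' with
  | add p q hp hq => rw [map_add, LinearMap.add_apply]; exact L.add_mem hp hq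
  | monomial n a =>
    rw [aeval_monomial, ← Algebra.smul_def, LinearMap.smul_apply]
    exact L.smul_mem a (hpow n x hx)

/-- the semisimple part of an element of `L` which commutes with a regular nilpotent element has
zero trace form with the elements orthogonal to the centre. -/
theorem trip_aux [CharZero K] [IsAlgClosed K] (hcent : S_CENT.{u, v}) {L : Submodule K (End K V)}
    (hL : IsLie L) (hn : NonDeg L) {r : ℕ} (hr : ∀ x ∈ L, r ≤ finrank K (cen L x))
    {N : End K V} (hN : N ∈ L) (hNn : IsNilpotent N) (hNr : finrank K (cen L N) ≤ r)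
    {H : End K V} (hH : H ∈ L) (hHc : ∀ z ∈ ctr L, LinearMap.trace K V (z * H) = 0)
    {y : End K V} (hy : y ∈ L) (hyN : N * y = y * N) (hyH : H * y = y * H) :
    LinearMap.trace K V (y * H) = 0 := by
  obtain ⟨n, hn', s, hs', hnn, hss, hyns⟩ := y.exists_isNilpotent_isSemisimple
  have hns : Commute n s :=
    Algebra.commute_of_mem_adjoin_singleton_of_commute hs'
      (Algebra.commute_of_mem_adjoin_self hn').symm
  have hnH : Commute n H :=
    (Algebra.commute_of_mem_adjoin_singleton_of_commute hn' (show Commute H y from hyH)).symm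
  have hsN : Commute N s :=
    Algebra.commute_of_mem_adjoin_singleton_of_commute hs' (show Commute N y from hyN)
  obtain ⟨p, hp⟩ := adE_poly hns hnn hss
  rw [← hyns] at hp
  have hsL : ∀ x ∈ L, adE s x ∈ L := by
    rw [← hp]
    exact poly_mem _ (hL.adE_mem hy) p
  obtain ⟨s', hs'L, hs'x⟩ := rep L hn
    ((LinearMap.trace K V) ∘ₗ (LinearMap.mulLeft K s) ∘ₗ L.subtype)
  have hs'x' : ∀ x ∈ L, LinearMap.trace K V (s * x) = LinearMap.trace K V (s' * x) :=
    fun x hx => hs'x ⟨x, hx⟩
  have had : ∀ x ∈ L, adE s' x = adE s x := by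
    intro x hx
    rw [← sub_eq_zero]
    apply hn _ (L.sub_mem (hL.adE_mem hs'L x hx) (hsL x hx))
    intro w hw
    rw [sub_mul, map_sub, adE_apply, adE_apply, tr_inv, tr_inv,
      hs'x' _ (hL x hx w hw), sub_self]
  have hcen : ∀ X ∈ L, s' * X = X * s' := by
    apply hcent K V L hL hn r hr N hN hNn hNr s' hs'L
    · have h1 := had N hN
      rw [adE_apply, adE_apply, hsN.eq, sub_self] at h1
      exact sub_eq_zero.1 h1
    · intro X hX hXX
      rw [had X hX] at hXX ⊢
      rw [had _ (hsL X hX)] at hXX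
      exact ker_sq (adE s) (adE_semi hss) X hXX
  rw [hyns, add_mul, map_add, tr_nil hnH hnn, hs'x' H hH, hHc s' ⟨hs'L, hcen⟩, add_zero]

/-- decomposition of a stable subspace into kernel and range -/
theorem ker_range {E : Type v} [AddCommGroup E] [Module K E] [FiniteDimensional K E]
    (T : End K E) (h : ∀ x, T (T x) = 0 → T x = 0) (x : E) : ∃ x0 x1, T x0 = 0 ∧ x = x0 + T x1 := by
  have hd : Disjoint (LinearMap.ker T) (LinearMap.range T) := by
    rw [Submodule.disjoint_def]
    rintro _ h1 ⟨z, rfl⟩
    exact h z h1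
  have ht := Submodule.eq_top_of_disjoint (LinearMap.ker T) (LinearMap.range T)
    (by rw [add_comm, LinearMap.finrank_range_add_finrank_ker]) hd
  obtain ⟨a, ha, _, ⟨b, rfl⟩, hab⟩ := Submodule.mem_sup.1 (show x ∈ LinearMap.ker T ⊔
    LinearMap.range T by rw [ht]; exact Submodule.mem_top)
  exact ⟨a, b, ha, hab.symm⟩

end

/-- TRIP, from CENT and JM1 -/
theorem trip (hcent : S_CENT.{u, v}) (hjm : S_JM1.{u, v}) : S_TRIP.{u, v} := by
  intro K _ _ _ V _ _ _ L hL hn r hr N hN hNn hNr d hd hdN hdd
  obtain ⟨c, hc, hcz⟩ := rep (ctr L) (nonDeg_ctr hL hn)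
    ((LinearMap.trace K V) ∘ₗ (LinearMap.mulLeft K (2 • d)) ∘ₗ (ctr L).subtype)
  have hcz' : ∀ z ∈ ctr L, LinearMap.trace K V (2 • d * z) = LinearMap.trace K V (c * z) :=
    fun z hz => hcz ⟨z, hz⟩
  have hH : 2 • d - c ∈ L := L.sub_mem (nsmul_mem hd 2) hc.1
  have hHc : ∀ z ∈ ctr L, LinearMap.trace K V (z * (2 • d - c)) = 0 := by
    intro z hz
    rw [LinearMap.trace_mul_comm, sub_mul, map_sub, hcz' z hz, sub_self]
  refine ⟨c, hc.1, hc.2, ?_⟩
  have hHd : d * (2 • d - c) = (2 • d - c) * d := by
    rw [mul_sub, sub_mul, hc.2 d hd, two_nsmul, mul_add, add_mul]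
  apply hjm K V L hL hn N hN hNn (2 • d - c) hH
  · rw [sub_mul, mul_sub, hc.2 N hN, sub_sub_sub_cancel_right, two_nsmul, two_nsmul, add_mul,
      mul_add]
    calc d * N + d * N - (N * d + N * d) = (d * N - N * d) + (d * N - N * d) := by abel
      _ = N + N := by rw [hdN]
  · intro z hz hNz
    -- the stable subspace
    have hst : ∀ x ∈ cen L N, adE d x ∈ cen L N := by
      rintro x ⟨hx, hNx⟩
      refine ⟨hL.adE_mem hd x hx, ?_⟩
      have h0 : d * N = N + N * d := sub_eq_iff_eq_add.1 hdN
      have h1 : N * d = d * N - N := by rw [h0]; abel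
      rw [adE_apply, mul_sub, sub_mul, ← mul_assoc, h1, ← mul_assoc, hNx, mul_assoc x N d, h1,
        sub_mul, mul_sub, mul_assoc d N x, hNx, mul_assoc d x N, mul_assoc x d N]
      abel
    obtain ⟨x0, x1, hx0, hx⟩ := ker_range ((adE d).restrict hst) (by
      intro x hx
      apply Subtype.ext
      exact hdd x x.2.1 (congrArg Subtype.val hx)) ⟨z, hz, hNz⟩
    have hx' : z = x0 + adE d x1 := congrArg Subtype.val hx
    have hx0' : d * (x0 : End K V) - x0 * d = 0 := congrArg Subtype.val hx0
    have hx0d : d * (x0 : End K V) = x0 * d := sub_eq_zero.1 hx0'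
    have h4 : LinearMap.trace K V ((x0 : End K V) * (2 • d - c)) = 0 := by
      apply trip_aux hcent hL hn hr hN hNn hNr hH hHc x0.2.1 x0.2.2
      rw [sub_mul, mul_sub, hc.2 _ x0.2.1, two_nsmul, add_mul, mul_add, hx0d]
    have h5 : LinearMap.trace K V (adE d x1 * (2 • d - c)) = 0 := by
      rw [adE_apply, sub_mul, map_sub, mul_assoc, LinearMap.trace_mul_comm, mul_assoc, ← hHd,
        mul_assoc, sub_self]
    rw [hx', add_mul, map_add, h4, h5, add_zero]

end Pool.Agent.Y809.RM
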